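import Mathlib

/-!
# Finite families of ideals of a well-quasi-ordered set that are closed under intersection
-/

set_option autoImplicit false

namespace Pool.Agent.Q146.Helly

open Set

section Ideals

variable {P : Type*} [Preorder P]

/-- `A` is a union of members of `F`. -/
def Cov (F : Set (LowerSet P)) (A : LowerSet P) : Prop := ∀ p ∈ A, ∃ J ∈ F, p ∈ J ∧ J ≤ A

theorem wf_lower (h : WellQuasiOrdered ((· ≤ ·) : P → P → Prop)) :
    WellFounded ((· < ·) : LowerSet P → LowerSet P → Prop) := by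
  rw [RelEmbedding.wellFounded_iff_isEmpty]
  refine ⟨fun f => ?_⟩
  have hlt : ∀ m n : ℕ, m < n → f n < f m := fun m n hmn => f.map_rel_iff.2 hmn
  have hex : ∀ n : ℕ, ∃ x : P, x ∈ f n ∧ x ∉ f (n + 1) := by
    intro n
    by_contra hc
    push Not at hc
    exact absurd (hlt n (n + 1) (Nat.lt_succ_self n)) (not_lt_of_ge hc)
  choose x hx hx' using hex
  obtain ⟨m, n, hmn, hle⟩ := h x
  have h1 : f n ≤ f (m + 1) := by
    rcases (Nat.succ_le_of_lt hmn).lt_or_eq with h2 | h2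
    · exact (hlt _ _ h2).le
    · rw [← h2]
  exact hx' m ((f (m + 1)).lower hle (h1 (hx n)))

theorem dir_cover {I : Set P} (hne : I.Nonempty) (hd : DirectedOn (· ≤ ·) I)
    {F : Set (LowerSet P)} (hF : F.Finite) (hc : ∀ p ∈ I, ∃ J ∈ F, p ∈ J) :
    ∃ J ∈ F, ∀ p ∈ I, p ∈ J := by
  by_contra hcon
  push Not at hcon
  have : Nonempty P := ⟨hne.some⟩
  choose! g hg hg' using hcon
  have key : ∀ G : Set (LowerSet P), G.Finite → G ⊆ F → ∃ q ∈ I, ∀ J ∈ G, g J ≤ q := by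
    intro G hG
    refine Set.Finite.induction_on G hG ?_ ?_
    · intro _
      obtain ⟨q, hq⟩ := hne
      exact ⟨q, hq, fun J hJ => absurd hJ (notMem_empty J)⟩
    · intro J G' _ _ ih hsub
      obtain ⟨q, hq, hq'⟩ := ih ((subset_insert _ _).trans hsub)
      obtain ⟨r, hr, h1, h2⟩ := hd q hq (g J) (hg J (hsub (mem_insert _ _)))
      refine ⟨r, hr, fun K hK => ?_⟩
      rcases hK with rfl | hK
      · exact h2
      · exact (hq' K hK).trans h1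
  obtain ⟨q, hq, hq'⟩ := key F hF Subset.rfl
  obtain ⟨J, hJ, hqJ⟩ := hc q hq
  exact hg' J hJ (J.lower (hq' J hJ) hqJ)

theorem exists_ideals (h : WellQuasiOrdered ((· ≤ ·) : P → P → Prop)) (D : LowerSet P) :
    ∀ F : Set (LowerSet P), F.Finite → (∀ A ∈ F, A ≤ D) →
      ∃ I : Set (LowerSet P), I.Finite ∧
        (∀ J ∈ I, J ≤ D ∧ (J : Set P).Nonempty ∧ DirectedOn (· ≤ ·) (J : Set P)) ∧
        Cov I D ∧ (∀ A ∈ F, Cov I A) ∧ ∀ J ∈ I, ∀ K ∈ I, Cov I (J ⊓ K) := by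
  induction D using (wf_lower h).induction with
  | _ D ih =>
  intro F hF hFD
  by_cases hne : (D : Set P).Nonempty
  swap
  · refine ⟨∅, finite_empty, fun J hJ => absurd hJ (notMem_empty J), ?_, ?_, ?_⟩
    · intro p hp
      exact absurd ⟨p, hp⟩ hne
    · intro A hA p hp
      exact absurd ⟨p, hFD A hA hp⟩ hne
    · intro J hJ
      exact absurd hJ (notMem_empty J)
  by_cases hd : DirectedOn (· ≤ ·) (D : Set P)
  · -- directed case
    have hF' : {A ∈ F | A ≠ D}.Finite := hF.subset (fun A hA => hA.1)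
    set D' : LowerSet P := sSup {A ∈ F | A ≠ D} with hD'
    have hle : D' ≤ D := sSup_le fun A hA => hFD A hA.1
    have hlt : D' < D := by
      refine lt_of_le_of_ne hle fun heq => ?_
      obtain ⟨J, hJ, hJ'⟩ := dir_cover hne hd hF' (fun p hp => by
        have hp' : p ∈ D' := by rw [heq]; exact hp
        rw [hD', LowerSet.mem_sSup_iff] at hp'
        exact hp')
      exact hJ.2 (le_antisymm (hFD J hJ.1) hJ')
    obtain ⟨I, hI, h1, h2, h3, h4⟩ := ih D' hlt _ hF' (fun A hA => le_sSup hA)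
    refine ⟨insert D I, hI.insert _, ?_, ?_, ?_, ?_⟩
    · intro J hJ
      rcases hJ with rfl | hJ
      · exact ⟨le_rfl, hne, hd⟩
      · exact ⟨(h1 J hJ).1.trans hle, (h1 J hJ).2⟩
    · intro p hp
      exact ⟨D, mem_insert _ _, hp, le_rfl⟩
    · intro A hA p hp
      by_cases hAD : A = D
      · exact ⟨D, mem_insert _ _, hAD ▸ hp, hAD ▸ le_rfl⟩
      · obtain ⟨J, hJ, h5⟩ := h3 A ⟨hA, hAD⟩ p hp
        exact ⟨J, mem_insert_of_mem _ hJ, h5⟩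
    · intro J hJ K hK p hp
      rcases hJ with rfl | hJ
      · rcases hK with rfl | hK
        · exact ⟨K, mem_insert _ _, hp.1, le_inf le_rfl le_rfl⟩
        · exact ⟨K, mem_insert_of_mem _ hK, hp.2, le_inf ((h1 K hK).1.trans hle) le_rfl⟩
      · rcases hK with rfl | hK
        · exact ⟨J, mem_insert_of_mem _ hJ, hp.1, le_inf le_rfl ((h1 J hJ).1.trans hle)⟩
        · obtain ⟨L, hL, h5⟩ := h4 J hJ K hK p hp
          exact ⟨L, mem_insert_of_mem _ hL, h5⟩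
  · -- not directed
    have hex : ∃ p ∈ D, ∃ q ∈ D, ∀ r ∈ D, p ≤ r → ¬ q ≤ r := by
      by_contra hc
      push Not at hc
      apply hd
      intro p hp q hq
      obtain ⟨r, hr, h1, h2⟩ := hc p hp q hq
      exact ⟨r, hr, h1, h2⟩
    obtain ⟨p₀, hp₀, q₀, hq₀, hpq⟩ := hex
    set D1 : LowerSet P := D ⊓ (UpperSet.Ici p₀).compl with hD1
    set D2 : LowerSet P := D ⊓ (UpperSet.Ici q₀).compl with hD2
    have m1 : ∀ r, r ∈ D1 ↔ r ∈ D ∧ ¬ p₀ ≤ r := fun r => by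
      rw [hD1, LowerSet.mem_inf_iff, UpperSet.mem_compl_iff, UpperSet.mem_Ici_iff]
    have m2 : ∀ r, r ∈ D2 ↔ r ∈ D ∧ ¬ q₀ ≤ r := fun r => by
      rw [hD2, LowerSet.mem_inf_iff, UpperSet.mem_compl_iff, UpperSet.mem_Ici_iff]
    have l1 : D1 ≤ D := inf_le_left
    have l2 : D2 ≤ D := inf_le_left
    have s1 : D1 < D := lt_of_le_of_ne l1 fun heq =>
      ((m1 p₀).1 (by rw [heq]; exact hp₀)).2 le_rfl
    have s2 : D2 < D := lt_of_le_of_ne l2 fun heq =>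
      ((m2 q₀).1 (by rw [heq]; exact hq₀)).2 le_rfl
    have hcov : ∀ r ∈ D, r ∈ D1 ∨ r ∈ D2 := by
      intro r hr
      by_cases hpr : p₀ ≤ r
      · exact Or.inr ((m2 r).2 ⟨hr, hpq r hr hpr⟩)
      · exact Or.inl ((m1 r).2 ⟨hr, hpr⟩)
    obtain ⟨I1, f1, a1, b1, c1, d1⟩ := ih D1 s1 ((fun A => A ⊓ D1) '' F) (hF.image _) (by
      rintro _ ⟨A, _, rfl⟩
      exact inf_le_right)
    obtain ⟨I2, f2, a2, b2, c2, d2⟩ := ih D2 s2 ((fun A => A ⊓ D2) '' F ∪ (fun J => J ⊓ D2) '' I1)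
      ((hF.image _).union (f1.image _)) (by
      rintro _ (⟨A, _, rfl⟩ | ⟨A, _, rfl⟩)
      · exact inf_le_right
      · exact inf_le_right)
    have hmix : ∀ J ∈ I1, ∀ K ∈ I2, Cov I2 (J ⊓ K) := by
      intro J hJ K hK p hp
      have hpD2 : p ∈ D2 := (a2 K hK).1 hp.2
      obtain ⟨L, hL, hpL, hLJ⟩ := c2 (J ⊓ D2) (Or.inr ⟨J, hJ, rfl⟩) p ⟨hp.1, hpD2⟩
      obtain ⟨N, hN, hpN, hNL⟩ := d2 L hL K hK p ⟨hpL, hp.2⟩
      exact ⟨N, hN, hpN, hNL.trans (inf_le_inf_right K (hLJ.trans inf_le_left))⟩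
    refine ⟨I1 ∪ I2, f1.union f2, ?_, ?_, ?_, ?_⟩
    · rintro J (hJ | hJ)
      · exact ⟨(a1 J hJ).1.trans l1, (a1 J hJ).2⟩
      · exact ⟨(a2 J hJ).1.trans l2, (a2 J hJ).2⟩
    · intro p hp
      rcases hcov p hp with h5 | h5
      · obtain ⟨J, hJ, hpJ, hJD⟩ := b1 p h5
        exact ⟨J, Or.inl hJ, hpJ, hJD.trans l1⟩
      · obtain ⟨J, hJ, hpJ, hJD⟩ := b2 p h5
        exact ⟨J, Or.inr hJ, hpJ, hJD.trans l2⟩
    · intro A hA p hp
      rcases hcov p (hFD A hA hp) with h5 | h5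
      · obtain ⟨J, hJ, hpJ, hJD⟩ := c1 (A ⊓ D1) ⟨A, hA, rfl⟩ p ⟨hp, h5⟩
        exact ⟨J, Or.inl hJ, hpJ, hJD.trans inf_le_left⟩
      · obtain ⟨J, hJ, hpJ, hJD⟩ := c2 (A ⊓ D2) (Or.inl ⟨A, hA, rfl⟩) p ⟨hp, h5⟩
        exact ⟨J, Or.inr hJ, hpJ, hJD.trans inf_le_left⟩
    · rintro J (hJ | hJ) K (hK | hK) p hp
      · obtain ⟨L, hL, h5⟩ := d1 J hJ K hK p hp
        exact ⟨L, Or.inl hL, h5⟩
      · obtain ⟨L, hL, h5⟩ := hmix J hJ K hK p hp
        exact ⟨L, Or.inr hL, h5⟩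
      · obtain ⟨L, hL, h5, h6⟩ := hmix K hK J hJ p ⟨hp.2, hp.1⟩
        exact ⟨L, Or.inr hL, h5, h6.trans (by rw [inf_comm])⟩
      · obtain ⟨L, hL, h5⟩ := d2 J hJ K hK p hp
        exact ⟨L, Or.inr hL, h5⟩

theorem exists_min_ideal {F : Set (LowerSet P)} (hF : F.Finite) (hT : Cov F ⊤)
    (hc : ∀ J ∈ F, ∀ K ∈ F, Cov F (J ⊓ K)) {I : Set P} (hne : I.Nonempty)
    (hd : DirectedOn (· ≤ ·) I) :
    ∃ J ∈ F, (∀ p ∈ I, p ∈ J) ∧ ∀ K ∈ F, (∀ p ∈ I, p ∈ K) → J ≤ K := by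
  have hfin : {J ∈ F | ∀ p ∈ I, p ∈ J}.Finite := hF.subset fun J hJ => hJ.1
  obtain ⟨J₀, hJ₀⟩ := dir_cover hne hd hF (fun p _ => by
    obtain ⟨J, hJ, hpJ, _⟩ := hT p trivial
    exact ⟨J, hJ, hpJ⟩)
  obtain ⟨J, hJ⟩ := hfin.exists_minimal ⟨J₀, hJ₀⟩
  refine ⟨J, hJ.prop.1, hJ.prop.2, fun K hK hKI => ?_⟩
  obtain ⟨L, ⟨hL, hLle⟩, hL'⟩ := dir_cover (F := {L ∈ F | L ≤ J ⊓ K}) hne hd
    (hF.subset fun L hL => hL.1) (fun p hp => by
      obtain ⟨L, hL, hpL, hle⟩ := hc J hJ.prop.1 K hK p ⟨hJ.prop.2 p hp, hKI p hp⟩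
      exact ⟨L, ⟨hL, hle⟩, hpL⟩)
  exact (hJ.le_of_le ⟨hL, hL'⟩ (hLle.trans inf_le_left)).trans (hLle.trans inf_le_right)

end Ideals

/-- Choice of a monotone system of representatives along a finite poset. -/
theorem exists_mono {ι Q : Type*} [PartialOrder ι] [Finite ι] [Preorder Q] (A : ι → Set Q)
    (H : ∀ J : ι, ∀ T : Set Q, T.Finite → (∀ p ∈ T, ∃ J' < J, p ∈ A J') →
      ∃ q ∈ A J, ∀ p ∈ T, p ≤ q) :
    ∃ t : ι → Q, (∀ J, t J ∈ A J) ∧ Monotone t := by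
  have wf : WellFounded ((· < ·) : ι → ι → Prop) := wellFounded_lt
  have step : ∀ J : ι, ∀ rec : (∀ J' : ι, J' < J → {q : Q // q ∈ A J'}),
      ∃ q : {q : Q // q ∈ A J}, ∀ (J' : ι) (h : J' < J), (rec J' h).1 ≤ q.1 := by
    intro J rec
    obtain ⟨q, hq, hq'⟩ := H J (Set.range fun J' : {J' : ι // J' < J} => (rec J'.1 J'.2).1)
      (Set.finite_range _) (by
        rintro _ ⟨J', rfl⟩
        exact ⟨J'.1, J'.2, (rec J'.1 J'.2).2⟩)
    exact ⟨⟨q, hq⟩, fun J' h => hq' _ ⟨⟨J', h⟩, rfl⟩⟩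
  choose F hF using step
  let t : ∀ J : ι, {q : Q // q ∈ A J} := wf.fix F
  have ht : ∀ J, t J = F J fun J' _ => t J' := fun J => wf.fix_eq F J
  refine ⟨fun J => (t J).1, fun J => (t J).2, fun J' J hle => ?_⟩
  rcases hle.lt_or_eq with hlt | rfl
  · have := hF J (fun J' _ => t J') J' hlt
    rw [← ht J] at this
    exact this
  · exact le_rfl

end Pool.Agent.Q146.Helly
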