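import Mathlib
import Pool.Agent.Q146.Helly.Ideals

/-!
# Order-preserving self-maps with finite image of posets of finite width
-/

set_option autoImplicit false

namespace Pool.Agent.Q146.Helly

open Set

theorem dir_finite {P : Type*} [Preorder P] {I : Set P} (hne : I.Nonempty)
    (hd : DirectedOn (· ≤ ·) I) {T : Set P} (hT : T.Finite) :
    T ⊆ I → ∃ q ∈ I, ∀ p ∈ T, p ≤ q := by
  refine Set.Finite.induction_on T hT ?_ ?_
  · intro _
    obtain ⟨q, hq⟩ := hne
    exact ⟨q, hq, fun J hJ => absurd hJ (notMem_empty J)⟩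
  · intro a G' _ _ ih hsub
    obtain ⟨q, hq, hq'⟩ := ih ((subset_insert _ _).trans hsub)
    obtain ⟨r, hr, h1, h2⟩ := hd q hq a (hsub (mem_insert _ _))
    refine ⟨r, hr, fun K hK => ?_⟩
    rcases hK with rfl | hK
    · exact h2
    · exact (hq' K hK).trans h1

section Words

variable {X : Type*} [PartialOrder X] {k : ℕ}

/-- The upper set generated by the elements of `V` of colour `j`. -/
def fm (c : X → Fin k) (j : Fin k) (V : Set X) : Set X := {x | ∃ y ∈ V, c y = j ∧ y ≤ x}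

/-- The upper set of a word. -/
def U (c : X → Fin k) (e : X) : List (Fin k) → Set X
  | [] => Ici e
  | j :: ω => fm c j (U c e ω)

variable (c : X → Fin k)

theorem fm_mono {j : Fin k} {V W : Set X} (h : V ⊆ W) : fm c j V ⊆ fm c j W := by
  rintro x ⟨y, hy, h1, h2⟩
  exact ⟨y, h hy, h1, h2⟩

theorem U_upper (e : X) (ω : List (Fin k)) : IsUpperSet (U c e ω) := by
  cases ω with
  | nil => exact isUpperSet_Ici e
  | cons j ω =>
    rintro a b hab ⟨y, hy, h1, h2⟩
    exact ⟨y, hy, h1, h2.trans hab⟩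

theorem fm_sub {j : Fin k} {V : Set X} (h : IsUpperSet V) : fm c j V ⊆ V := by
  rintro x ⟨y, hy, _, h2⟩
  exact h h2 hy

theorem U_sublist (e : X) {ω ω' : List (Fin k)} (h : ω.Sublist ω') :
    U c e ω' ⊆ U c e ω := by
  induction h with
  | slnil => exact Subset.rfl
  | cons a _ ih => exact (fm_sub c (U_upper c e _)).trans ih
  | cons_cons a _ ih => exact fm_mono c ih

theorem U_dir (hc : ∀ a b, c a = c b → a ≤ b ∨ b ≤ a) (e : X) (ω : List (Fin k)) {x y : X}
    (hx : x ∈ U c e ω) (hy : y ∈ U c e ω) : ∃ z ∈ U c e ω, z ≤ x ∧ z ≤ y := by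
  cases ω with
  | nil => exact ⟨e, le_rfl, hx, hy⟩
  | cons j ω =>
    obtain ⟨a, ha, ha1, ha2⟩ := hx
    obtain ⟨b, hb, hb1, hb2⟩ := hy
    rcases hc a b (ha1.trans hb1.symm) with h | h
    · exact ⟨a, ⟨a, ha, ha1, le_rfl⟩, ha2, h.trans hb2⟩
    · exact ⟨b, ⟨b, hb, hb1, le_rfl⟩, h.trans ha2, hb2⟩

/-- Words with nonempty upper sets, ordered by reverse inclusion of the upper sets. -/
def Pt (E : Finset X) : Type _ := {p : E × List (Fin k) // (U c p.1 p.2).Nonempty}

instance (E : Finset X) : Preorder (Pt c E) where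
  le p q := U c q.1.1 q.1.2 ⊆ U c p.1.1 p.1.2
  le_refl _ := Subset.rfl
  le_trans _ _ _ h1 h2 := h2.trans h1

theorem pt_le {E : Finset X} (p q : Pt c E) : p ≤ q ↔ U c q.1.1 q.1.2 ⊆ U c p.1.1 p.1.2 := Iff.rfl

theorem pt_wqo (E : Finset X) : WellQuasiOrdered ((· ≤ ·) : Pt c E → Pt c E → Prop) := by
  have h0 : (univ : Set (Fin k)).PartiallyWellOrderedOn (· = ·) :=
    Set.finite_univ.partiallyWellOrderedOn
  have h1 := Set.PartiallyWellOrderedOn.partiallyWellOrderedOn_sublistForall₂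
    (r := ((· = ·) : Fin k → Fin k → Prop)) h0
  have h2 : WellQuasiOrdered (List.SublistForall₂ ((· = ·) : Fin k → Fin k → Prop)) := by
    intro f
    exact h1 (fun n => ⟨f n, fun x _ => mem_univ x⟩)
  have h3 : WellQuasiOrdered ((· = ·) : E → E → Prop) := Finite.wellQuasiOrdered _
  intro s
  obtain ⟨m, n, hmn, h4, h5⟩ := h3.prod h2 (fun i => (s i).1)
  refine ⟨m, n, hmn, ?_⟩
  show s m ≤ s n
  rw [pt_le]
  rw [List.sublistForall₂_iff] at h5
  obtain ⟨l, hl, hl'⟩ := h5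
  rw [List.forall₂_eq_eq_eq] at hl
  subst hl
  have h6 := U_sublist c ((s n).1.1 : X) hl'
  rw [h4]
  exact h6

/-- **Main lemma.** A poset that is a union of `k` chains and that has a finite set `E` below all
of its elements has an order-preserving self-map with finite image fixing `E`. -/
theorem exists_finite_map (hc : ∀ a b, c a = c b → a ≤ b ∨ b ≤ a) (E : Finset X)
    (hE : ∀ x, ∃ e ∈ E, e ≤ x) :
    ∃ M : X → X, Monotone M ∧ (range M).Finite ∧ ∀ e ∈ E, M e = e := by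
  classical
  let pe : E → Pt c E := fun e => ⟨(e, []), ⟨e, le_rfl⟩⟩
  have hpeU : ∀ e : E, U c (pe e).1.1 (pe e).1.2 = Ici (e : X) := fun e => rfl
  obtain ⟨F, hFf, hF1, hF2, hF3, hF4⟩ := exists_ideals (pt_wqo c E) ⊤
    (range fun e : E => LowerSet.Iic (pe e)) (finite_range _) (fun _ _ => le_top)
  -- principal ideals belong to the family
  have hprin : ∀ e : E, LowerSet.Iic (pe e) ∈ F := by
    intro e
    obtain ⟨J, hJ, h1, h2⟩ := hF3 _ ⟨e, rfl⟩ (pe e) (LowerSet.mem_Iic_iff.2 le_rfl)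
    have : J = LowerSet.Iic (pe e) :=
      le_antisymm h2 (fun q hq => J.lower (LowerSet.mem_Iic_iff.1 hq) h1)
    rw [← this]
    exact hJ
  have hinj : ∀ e e' : E, LowerSet.Iic (pe e) = LowerSet.Iic (pe e') → e = e' := by
    intro e e' h
    have h1 : pe e ≤ pe e' := LowerSet.mem_Iic_iff.1 (h ▸ LowerSet.mem_Iic_iff.2 le_rfl)
    have h2 : pe e' ≤ pe e := LowerSet.mem_Iic_iff.1 (h ▸ LowerSet.mem_Iic_iff.2 le_rfl)
    rw [pt_le, hpeU, hpeU] at h1 h2
    exact Subtype.ext (le_antisymm (h1 (mem_Ici.2 le_rfl)) (h2 (mem_Ici.2 le_rfl)))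
  -- the ideal of a point
  let I : X → Set (Pt c E) := fun x => {p | x ∈ U c p.1.1 p.1.2}
  have hIne : ∀ x, (I x).Nonempty := by
    intro x
    obtain ⟨e, he, hex⟩ := hE x
    exact ⟨pe ⟨e, he⟩, hex⟩
  have hId : ∀ x, DirectedOn (· ≤ ·) (I x) := by
    intro x p hp q hq
    have hp' : x ∈ U c p.1.1 p.1.2 := hp
    have hq' : x ∈ U c q.1.1 q.1.2 := hq
    let P : Pt c E := ⟨(p.1.1, c x :: p.1.2), ⟨x, x, hp', rfl, le_rfl⟩⟩
    let Q : Pt c E := ⟨(q.1.1, c x :: q.1.2), ⟨x, x, hq', rfl, le_rfl⟩⟩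
    have hP : x ∈ U c P.1.1 P.1.2 := ⟨x, hp', rfl, le_rfl⟩
    have hQ : x ∈ U c Q.1.1 Q.1.2 := ⟨x, hq', rfl, le_rfl⟩
    have hpP : p ≤ P := fm_sub c (U_upper c _ _)
    have hqQ : q ≤ Q := fm_sub c (U_upper c _ _)
    have hPQ : P ≤ Q ∨ Q ≤ P := by
      by_contra hcon
      push Not at hcon
      obtain ⟨h1, h2⟩ := hcon
      rw [pt_le, not_subset] at h1 h2
      obtain ⟨a, ⟨a', ha1, ha2, ha3⟩, ha⟩ := h1
      obtain ⟨b, ⟨b', hb1, hb2, hb3⟩, hb⟩ := h2
      rcases hc a' b' (ha2.trans hb2.symm) with h | h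
      · exact hb ⟨a', ha1, ha2, h.trans hb3⟩
      · exact ha ⟨b', hb1, hb2, h.trans ha3⟩
    rcases hPQ with h | h
    · exact ⟨Q, hQ, hpP.trans h, hqQ⟩
    · exact ⟨P, hP, hpP, hqQ.trans h⟩
  have hImono : ∀ x y, x ≤ y → I x ⊆ I y := fun x y hxy p hp => U_upper c _ _ hxy hp
  choose J hJF hJI hJmin using fun x => exists_min_ideal hFf hF2 hF4 (hIne x) (hId x)
  have hJmono : ∀ x y, x ≤ y → J x ≤ J y := fun x y hxy =>
    hJmin x (J y) (hJF y) fun p hp => hJI y p (hImono x y hxy hp)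
  have hJe : ∀ e : E, J e = LowerSet.Iic (pe e) := by
    intro e
    apply le_antisymm
    · apply hJmin e _ (hprin e)
      intro p hp
      rw [LowerSet.mem_Iic_iff, pt_le, hpeU]
      intro x hx
      exact U_upper c _ _ hx hp
    · intro p hp
      exact (J e).lower (LowerSet.mem_Iic_iff.1 hp) (hJI e (pe e) (mem_Ici.2 le_rfl))
  -- choice of the words
  have hfin : Finite F := hFf.to_subtype
  obtain ⟨t, ht, htm⟩ := exists_mono (ι := F) (Q := Pt c E)
    (fun K => {p | p ∈ K.1 ∧ ∀ e : E, K.1 = LowerSet.Iic (pe e) → p = pe e}) (by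
      intro K T hT hTK
      have hTK' : T ⊆ (K.1 : Set (Pt c E)) := by
        intro p hp
        obtain ⟨K', hK', h1⟩ := hTK p hp
        exact hK'.le h1.1
      by_cases hK : ∃ e : E, K.1 = LowerSet.Iic (pe e)
      · obtain ⟨e, he⟩ := hK
        refine ⟨pe e, ⟨?_, fun e' he' => ?_⟩, fun p hp => ?_⟩
        · rw [he]
          exact LowerSet.mem_Iic_iff.2 le_rfl
        · rw [hinj e e' (he.symm.trans he')]
        · have := hTK' hp
          rw [he] at this
          exact LowerSet.mem_Iic_iff.1 this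
      · obtain ⟨q, hq, hq'⟩ := dir_finite (hF1 K.1 K.2).2.1 (hF1 K.1 K.2).2.2 hT hTK'
        exact ⟨q, ⟨hq, fun e he => absurd ⟨e, he⟩ hK⟩, hq'⟩)
  -- choice of the points
  obtain ⟨m, hm, hmm⟩ := exists_mono (ι := Fᵒᵈ) (Q := Xᵒᵈ)
    (fun K => {x | OrderDual.ofDual x ∈ U c (t (OrderDual.ofDual K)).1.1 (t (OrderDual.ofDual K)).1.2 ∧
      ∀ e : E, (OrderDual.ofDual K).1 = LowerSet.Iic (pe e) → OrderDual.ofDual x = (e : X)}) (by
      intro K T hT hTK
      set K₀ : F := OrderDual.ofDual K with hK₀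
      have hTK' : ∀ x ∈ T, OrderDual.ofDual x ∈ U c (t K₀).1.1 (t K₀).1.2 := by
        intro x hx
        obtain ⟨K', hK', h1⟩ := hTK x hx
        have hle : K₀ ≤ OrderDual.ofDual K' := hK'.le
        exact htm hle h1.1
      by_cases hK : ∃ e : E, K₀.1 = LowerSet.Iic (pe e)
      · obtain ⟨e, he⟩ := hK
        have hte : t K₀ = pe e := (ht K₀).2 e he
        refine ⟨OrderDual.toDual (e : X), ⟨?_, fun e' he' => ?_⟩, fun x hx => ?_⟩
        · rw [hte]
          exact mem_Ici.2 le_rfl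
        · rw [hinj e e' (he.symm.trans he')]
          rfl
        · have := hTK' x hx
          rw [hte] at this
          exact this
      · obtain ⟨q, hq, hq'⟩ := dir_finite (P := Xᵒᵈ)
          (I := {x | OrderDual.ofDual x ∈ U c (t K₀).1.1 (t K₀).1.2}) (by
            obtain ⟨x, hx⟩ := (t K₀).2
            exact ⟨OrderDual.toDual x, hx⟩) (by
            intro x hx y hy
            obtain ⟨z, hz, h1, h2⟩ := U_dir c hc _ _ hx hy
            exact ⟨OrderDual.toDual z, hz, h1, h2⟩) hT hTK'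
        exact ⟨q, ⟨hq, fun e he => absurd ⟨e, he⟩ hK⟩, hq'⟩)
  let m' : F → X := fun K => OrderDual.ofDual (m (OrderDual.toDual K))
  have hm'mono : Monotone m' := by
    intro K K' h
    have h1 : (OrderDual.toDual K' : Fᵒᵈ) ≤ OrderDual.toDual K := h
    exact hmm h1
  refine ⟨fun x => m' ⟨J x, hJF x⟩, ?_, ?_, ?_⟩
  · intro x y hxy
    exact hm'mono (hJmono x y hxy)
  · apply (finite_range m').subset
    rintro _ ⟨x, rfl⟩
    exact ⟨_, rfl⟩
  · intro e he
    exact (hm (OrderDual.toDual ⟨J e, hJF e⟩)).2 ⟨e, he⟩ (hJe ⟨e, he⟩)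

end Words

end Pool.Agent.Q146.Helly
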